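import Pool.Agent.R632.Eng.Contr

/-! A finitely generated branch group with elements of infinite order which satisfies the Engel
type iterated identity `w(x, y) = [x², (y x y⁻¹)²]`. -/

namespace Pool.Agent.Results.MP_019d96_al.NonTorsion

open Equiv Pool.Agent.R632.Eng
open scoped commutatorElement

/-- Automorphisms of the rooted tree of the words over the alphabet `X`: permutations of the words
which preserve the length and the relation of being an initial segment. -/
def IsTreeAut {X : Type} (g : Perm (List X)) : Prop :=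
  (∀ w, (g w).length = w.length) ∧ ∀ v w, g v <+: g w ↔ v <+: w

/-- The rigid stabiliser of the vertex `v` : the elements of `K` fixing every word outside the
subtree with root `v`. -/
def rist {X : Type} (K : Subgroup (Perm (List X))) (v : List X) : Set (Perm (List X)) :=
  {g | g ∈ K ∧ ∀ w, ¬ v <+: w → g w = w}

/-- The rigid stabiliser of level `n`. -/
def Rist {X : Type} (K : Subgroup (Perm (List X))) (n : ℕ) : Subgroup (Perm (List X)) :=
  Subgroup.closure {g | ∃ v : List X, v.length = n ∧ g ∈ rist K v}

/-- Branch groups of automorphisms of the tree of the words over `X`: level transitive, and all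
rigid level stabilisers have finite index. -/
def IsBranch {X : Type} (K : Subgroup (Perm (List X))) : Prop :=
  (∀ g ∈ K, IsTreeAut g) ∧ (∀ v w : List X, v.length = w.length → ∃ g ∈ K, g v = w) ∧
    ∀ n, (Rist K n).relIndex K ≠ 0

/-- The words `e_k`: the first letter is replaced by the previous word, the other letters are
kept. -/
def engel {n : ℕ} (w : FreeGroup (Fin (n + 1))) : ℕ → FreeGroup (Fin (n + 1))
  | 0 => FreeGroup.of 0
  | k + 1 => FreeGroup.lift (Function.update FreeGroup.of 0 (engel w k)) w

/-- The group `G` satisfies the Engel type iterated identity `w`. -/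
def Satisfies {A : Type} [Group A] {n : ℕ} (G : Subgroup A) (w : FreeGroup (Fin (n + 1))) : Prop :=
  ∀ x : Fin (n + 1) → A, (∀ i, x i ∈ G) → ∃ m, FreeGroup.lift x (engel w m) = 1

/-- the word `[x², (y x y⁻¹)²]` -/
def wd : FreeGroup (Fin 2) :=
  ⁅(FreeGroup.of 0 * FreeGroup.of 0 : FreeGroup (Fin 2)),
    ((FreeGroup.of 1 * FreeGroup.of 0 * (FreeGroup.of 1)⁻¹) *
      (FreeGroup.of 1 * FreeGroup.of 0 * (FreeGroup.of 1)⁻¹) : FreeGroup (Fin 2))⁆

set_option maxRecDepth 20000 in
lemma wd_ne : wd ≠ 1 := by
  intro h
  have h1 := congrArg (FreeGroup.lift (fun i : Fin 2 => if i = 0 then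
    (swap (0 : Fin 4) 1 * swap 1 2) else swap (2 : Fin 4) 3)) h
  simp only [wd, commutatorElement_def, map_mul, map_inv, FreeGroup.lift_apply_of, map_one] at h1
  have h2 := Equiv.congr_fun h1 0
  revert h2
  decide

lemma lift_engel {A : Type} [Group A] {n : ℕ} (x : Fin (n + 1) → A) (w : FreeGroup (Fin (n + 1)))
    (k : ℕ) : FreeGroup.lift x (engel w (k + 1)) =
      FreeGroup.lift (Function.update x 0 (FreeGroup.lift x (engel w k))) w := by
  have h : (FreeGroup.lift x).comp (FreeGroup.lift (Function.update FreeGroup.of 0 (engel w k))) =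
      FreeGroup.lift (Function.update x 0 (FreeGroup.lift x (engel w k))) := by
    ext i
    rw [MonoidHom.comp_apply, FreeGroup.lift_apply_of, FreeGroup.lift_apply_of]
    by_cases hi : i = 0
    · subst hi
      rw [Function.update_self, Function.update_self]
    · rw [Function.update_of_ne hi, Function.update_of_ne hi, FreeGroup.lift_apply_of]
  exact DFunLike.congr_fun h w

lemma lift_wd (x : Fin 2 → W X) (k : ℕ) :
    FreeGroup.lift x (engel wd k) = es (x 0) (x 1) k := by
  induction k with
  | zero =>
    show FreeGroup.lift x (FreeGroup.of 0) = _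
    rw [FreeGroup.lift_apply_of]
    rfl
  | succ k ih =>
    rw [lift_engel, ih]
    unfold wd
    rw [map_commutatorElement]
    simp only [map_mul, map_inv, FreeGroup.lift_apply_of]
    rw [Function.update_self, Function.update_of_ne (by decide)]
    rfl

lemma isBranch : IsBranch (K.map W.toPerm) := by
  refine ⟨?_, ?_, ?_⟩
  · rintro _ ⟨g, _, rfl⟩
    refine ⟨fun w => g.act_length w, fun v w => ⟨fun h => ?_, fun h => g.act_prefix h⟩⟩
    have h1 := (g⁻¹).act_prefix (show g.act v <+: g.act w from h)
    rwa [W.act_inv_act, W.act_inv_act] at h1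
  · intro v w hvw
    obtain ⟨k, hk, hkv⟩ := transitive v w hvw
    exact ⟨_, ⟨k, hk, rfl⟩, hkv⟩
  · intro n h
    have h1 : (W.RistW K n).map W.toPerm ≤ Rist (K.map W.toPerm) n := by
      unfold W.RistW
      rw [MonoidHom.map_closure]
      apply Subgroup.closure_mono
      rintro _ ⟨g, ⟨hg, v, hv, hw⟩, rfl⟩
      exact ⟨v, hv, ⟨g, hg, rfl⟩, hw⟩
    have h2 := Subgroup.relIndex_eq_zero_of_le_left h1 h
    rw [Subgroup.relIndex_map_map_of_injective _ _ W.toPerm_injective] at h2
    exact Pool.Agent.R632.Eng.rist n h2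

lemma fg_map {A B : Type} [Group A] [Group B] (f : A →* B) {K : Subgroup A} (h : K.FG) :
    (K.map f).FG := by
  rw [Subgroup.fg_iff] at h ⊢
  obtain ⟨S, rfl, hS⟩ := h
  exact ⟨f '' S, (MonoidHom.map_closure f S).symm, hS.image f⟩

/-- There are a non-trivial word `w` and a finitely generated branch group `G` on the regular
rooted tree of the words over `ZMod 64` such that `G` satisfies the Engel type iterated identity
`w` and contains an element of infinite order. One can take `w = [x², (y x y⁻¹)²]`. -/
theorem result : ∃ G : Subgroup (Perm (List (ZMod 64))),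
    G.FG ∧ IsBranch G ∧ wd ≠ 1 ∧ Satisfies G wd ∧ ∃ g ∈ G, ¬ IsOfFinOrder g := by
  refine ⟨K.map W.toPerm, fg_map _ K_fg, isBranch, wd_ne, ?_, W.toPerm tt, ⟨tt, tt_mem, rfl⟩, ?_⟩
  · intro x hx
    choose y hy hyx using hx
    obtain ⟨m, hm⟩ := iterated (hy 0) (hy 1)
    refine ⟨m, ?_⟩
    have h1 : FreeGroup.lift x = W.toPerm.comp (FreeGroup.lift y) := by
      ext i : 1
      rw [MonoidHom.comp_apply, FreeGroup.lift_apply_of, FreeGroup.lift_apply_of, hyx]
    rw [h1, MonoidHom.comp_apply, lift_wd, hm, map_one]
  · rw [isOfFinOrder_iff_pow_eq_one]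
    rintro ⟨n, hn, h⟩
    rw [← map_pow] at h
    exact tt_infinite n hn (W.toPerm_injective (h.trans (map_one _).symm))

end Pool.Agent.Results.MP_019d96_al.NonTorsion
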